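import Pool.Agent.Helper60.PCF.St.ResEps

/-!
Proper conflict-free list colouring of arbitrary graphs from lists whose size exceeds the degree only by a small
fraction of the local maximum degree.
-/

set_option autoImplicit false

namespace Pool.Agent.Results.MP_cab741_co.AllGraphsDegreePlusEps

open Finset

/-- For every `ε > 0` there is a constant `C` such that every finite graph `G` with lists of size at least
`d(v) + min (d(v) + 1) (ε D(v) + C)`, where `D(v)` bounds the degrees on the closed neighbourhood of `v`, has a proper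
conflict-free list colouring. -/
theorem result : ∀ ε : ℝ, 0 < ε → ∃ C : ℝ, ∀ (V α : Type) [Fintype V] [DecidableEq V]
    [DecidableEq α] (G : SimpleGraph V) [DecidableRel G.Adj] (D : V → ℕ) (L : V → Finset α),
    (∀ v, G.degree v ≤ D v) → (∀ v w, G.Adj v w → G.degree w ≤ D v) →
    (∀ v, (G.degree v : ℝ) + min ((G.degree v : ℝ) + 1) (ε * D v + C) ≤ #(L v)) →
    ∃ φ : V → α, (∀ v, φ v ∈ L v) ∧ (∀ u v, G.Adj u v → φ u ≠ φ v) ∧
      ∀ v, (∃ u, G.Adj v u) → ∃ c, ∃! u, G.Adj v u ∧ φ u = c :=
  Pool.Agent.Helper60.PCF.St.ResEps.thm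

end Pool.Agent.Results.MP_cab741_co.AllGraphsDegreePlusEps
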