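import Pool.Agent.Helper60.PCF.St.ResLog

/-!
Proper conflict-free list colouring of arbitrary graphs of maximum degree at most `Δ` from lists of size
`d(v) + O(Δ / log Δ)`.
-/

set_option autoImplicit false

namespace Pool.Agent.Results.MP_cab741_co.AllGraphsDegreePlusLog

open Finset

/-- There is a constant `K` such that every finite graph `G` of maximum degree at most `Δ` (`Δ ≥ 2`) with lists of size
at least `d(v) + min (d(v) + 1) (K Δ / log Δ)` has a proper conflict-free list colouring. -/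
theorem result : ∃ K : ℝ, ∀ Δ : ℕ, 2 ≤ Δ → ∀ (V α : Type) [Fintype V] [DecidableEq V]
    [DecidableEq α] (G : SimpleGraph V) [DecidableRel G.Adj] (L : V → Finset α),
    (∀ v, G.degree v ≤ Δ) →
    (∀ v, (G.degree v : ℝ) + min ((G.degree v : ℝ) + 1) (K * Δ / Real.log Δ) ≤ #(L v)) →
    ∃ φ : V → α, (∀ v, φ v ∈ L v) ∧ (∀ u v, G.Adj u v → φ u ≠ φ v) ∧
      ∀ v, (∃ u, G.Adj v u) → ∃ c, ∃! u, G.Adj v u ∧ φ u = c :=
  Pool.Agent.Helper60.PCF.St.ResLog.thm

end Pool.Agent.Results.MP_cab741_co.AllGraphsDegreePlusLog
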