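import Mathlib
import Pool.Agent.Helper25.CP.Main

/-!
Proper conflict-free list colourings of all graphs of large maximum degree `Δ`, from lists with
`|L v| ≥ deg v + 1` and `|L v| ≥ min ((1/2 + ε) Δ) (deg v + ε Δ)`; in particular from lists of size `Δ + 1`.
-/

namespace Pool.Agent.Results.MP_cab741_co.LargeMaxDegreeAllGraphs

/-- `c` is a proper conflict-free colouring of `G`: adjacent vertices have different colours, and for
every vertex `v` with a neighbour some colour is used by exactly one neighbour of `v`. -/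
def IsPCF {V : Type} (G : SimpleGraph V) (c : V → ℕ) : Prop :=
  (∀ u v, G.Adj u v → c u ≠ c v) ∧
    ∀ v, (∃ u, G.Adj v u) → ∃ a, ∃! u, G.Adj v u ∧ c u = a

/-- `G` is proper conflict-free `f`-choosable: for all lists with `|L v| ≥ f v` there is a proper
conflict-free colouring from the lists. -/
def PCFChoosable {V : Type} (G : SimpleGraph V) (f : V → ℕ) : Prop :=
  ∀ L : V → Finset ℕ, (∀ v, f v ≤ (L v).card) → ∃ c : V → ℕ, (∀ v, c v ∈ L v) ∧ IsPCF G c

/-- For every `ε > 0` there is `Δ₀` such that for `Δ ≥ Δ₀` every finite graph with all degrees at most `Δ` is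
proper conflict-free `f`-choosable for `f v = max (deg v + 1) ⌈min ((1/2 + ε) Δ) (deg v + ε Δ)⌉`. -/
theorem result : ∀ ε : ℝ, 0 < ε → ∃ Δ₀ : ℕ, ∀ (V : Type) [Finite V] (G : SimpleGraph V) (Δ : ℕ),
    Δ₀ ≤ Δ → (∀ v, (G.neighborSet v).ncard ≤ Δ) →
    PCFChoosable G (fun v => max ((G.neighborSet v).ncard + 1)
      ⌈min ((1 / 2 + ε) * (Δ : ℝ)) (((G.neighborSet v).ncard : ℝ) + ε * Δ)⌉₊) := by
  intro ε hε
  obtain ⟨Δ0, h⟩ := Pool.Agent.Helper25.CP.mainC ε hε
  refine ⟨Δ0, ?_⟩
  intro V _ G Δ hΔ hmax L hL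
  classical
  haveI : Fintype V := Fintype.ofFinite V
  set N : V → Finset V := fun v => Finset.univ.filter fun u => G.Adj v u with hN
  have hmem : ∀ v u, u ∈ N v ↔ G.Adj v u := fun v u => by simp [hN]
  have hcard : ∀ v, (N v).card = (G.neighborSet v).ncard := by
    intro v
    rw [← Set.ncard_coe_finset]
    congr 1
    ext u
    rw [Finset.mem_coe, hmem, SimpleGraph.mem_neighborSet]
  obtain ⟨c, h1, h2, h3⟩ := h V N L Δ
    ⟨fun u v huv => (hmem _ _).mpr ((hmem _ _).mp huv).symm,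
      fun v hv => G.loopless.irrefl v ((hmem _ _).mp hv)⟩
    hΔ (fun v => by rw [hcard]; exact hmax v)
    (fun v => by rw [hcard]; exact (le_max_left _ _).trans (hL v))
    (fun v => by
      have h4 := Nat.ceil_le.mp ((le_max_right _ _).trans (hL v))
      rw [hcard]
      exact min_le_iff.mp h4)
  refine ⟨c, h1, fun u v huv => h2 v u ((hmem _ _).mpr huv.symm), fun v hv => ?_⟩
  obtain ⟨w, hw⟩ := hv
  obtain ⟨u, hu, hu'⟩ := h3 v ⟨w, (hmem _ _).mpr hw⟩
  exact ⟨c u, u, ⟨(hmem _ _).mp hu, rfl⟩, fun w hw => hu' w ((hmem _ _).mpr hw.1) hw.2⟩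

end Pool.Agent.Results.MP_cab741_co.LargeMaxDegreeAllGraphs
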